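import Pool.Agent.Lib.MP_7470b6_lc.For.FoA

/-!
# Job FoM: the sum of the gains is the weight of a matching
-/

open Finset

namespace Pool.Agent.Lib.MP_7470b6_lc.For

open Pool.Agent.Lib.MP_7470b6_lc.Crs

variable {V : Type} [Fintype V] {G : SimpleGraph V} {par : V → Option V} {rk : V → ℕ}
  {w : Sym2 V → ℝ}

open Classical in
private theorem FoM_aux (hr : Rooted G par rk) (S : Finset (Sym2 V)) (n : ℕ) :
    ∀ U : Finset V, U.card = n → (∀ u ∈ U, ∀ c, par c = some u → c ∈ U) →
      ∃ M ⊆ S, IsMatch M ∧ (∀ e ∈ M, ∀ v ∈ e, v ∈ U) ∧ ∑ e ∈ M, w e = ∑ u ∈ U, LL par rk w S u := by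
  induction n using Nat.strong_induction_on with
  | _ n ih =>
  intro U hU hcl
  rcases U.eq_empty_or_nonempty with rfl | hne
  · refine ⟨∅, Finset.empty_subset _, ?_, ?_, ?_⟩
    · intro e he
      exact absurd he (Finset.notMem_empty e)
    · intro e he
      exact absurd he (Finset.notMem_empty e)
    · simp
  obtain ⟨v, hvU, hmax⟩ := Finset.exists_max_image U rk hne
  have hpar : ∀ u ∈ U, par v ≠ some u := by
    intro u hu h
    exact absurd (hmax u hu) (not_le.mpr (hr.rank v u h))
  have hcard : (U.erase v).card < n := by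
    rw [← hU]
    exact Finset.card_erase_lt_of_mem hvU
  by_cases h0 : LL par rk w S v = 0
  · obtain ⟨M, hMS, hM, hMU, hsum⟩ := ih _ hcard (U.erase v) rfl (by
      intro u hu c hc
      rw [Finset.mem_erase] at hu ⊢
      refine ⟨?_, hcl u hu.2 c hc⟩
      rintro rfl
      exact hpar u hu.2 hc)
    refine ⟨M, hMS, hM, fun e he x hx => Finset.mem_of_mem_erase (hMU e he x hx), ?_⟩
    rw [hsum, ← Finset.add_sum_erase U _ hvU, h0, zero_add]
  · have hpos : 0 < mx (pc par S v) (fun c => w s(c, v) - LL par rk w S c) := by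
      rw [← LL_rec hr S v]
      exact lt_of_le_of_ne (LL_nonneg S v) (Ne.symm h0)
    obtain ⟨c, hc, hcv⟩ := exists_eq_mx hpos
    rw [← LL_rec hr S v] at hcv
    unfold pc ch at hc
    rw [Finset.mem_filter, Finset.mem_filter] at hc
    obtain ⟨⟨-, hcp⟩, hcS⟩ := hc
    have hcU : c ∈ U := hcl v hvU c hcp
    have hcv' : c ≠ v := by
      rintro rfl
      exact hpar c hvU hcp
    have hcE : c ∈ U.erase v := Finset.mem_erase.mpr ⟨hcv', hcU⟩
    obtain ⟨M, hMS, hM, hMU, hsum⟩ := ih _ ((Finset.card_erase_lt_of_mem hcE).trans hcard)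
      ((U.erase v).erase c) rfl (by
      intro u hu d hd
      rw [Finset.mem_erase, Finset.mem_erase] at hu ⊢
      refine ⟨?_, ?_, hcl u hu.2.2 d hd⟩
      · rintro rfl
        rw [hcp] at hd
        exact hu.2.1 (Option.some_injective _ hd).symm
      · rintro rfl
        exact hpar u hu.2.2 hd)
    have hv' : v ∉ (U.erase v).erase c := fun h => (Finset.mem_erase.mp (Finset.mem_erase.mp h).2).1 rfl
    have hc' : c ∉ (U.erase v).erase c := fun h => (Finset.mem_erase.mp h).1 rfl
    have hnot : ∀ f ∈ M, ∀ x, x ∈ s(c, v) → x ∉ f := by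
      intro f hf x hx hxf
      have h1 := hMU f hf x hxf
      rcases Sym2.mem_iff.mp hx with rfl | rfl
      · exact hc' h1
      · exact hv' h1
    have hnm : s(c, v) ∉ M := fun h => hnot _ h v (Sym2.mem_mk_right c v) (Sym2.mem_mk_right c v)
    refine ⟨insert s(c, v) M, ?_, ?_, ?_, ?_⟩
    · intro e he
      rcases Finset.mem_insert.mp he with rfl | he
      · exact hcS
      · exact hMS he
    · intro e he f hf x hxe hxf
      rcases Finset.mem_insert.mp he with rfl | he
      · rcases Finset.mem_insert.mp hf with rfl | hf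
        · rfl
        · exact absurd hxf (hnot f hf x hxe)
      · rcases Finset.mem_insert.mp hf with rfl | hf
        · exact absurd hxe (hnot e he x hxf)
        · exact hM e he f hf x hxe hxf
    · intro e he x hx
      rcases Finset.mem_insert.mp he with rfl | he
      · rcases Sym2.mem_iff.mp hx with rfl | rfl
        · exact hcU
        · exact hvU
      · exact Finset.mem_of_mem_erase (Finset.mem_of_mem_erase (hMU e he x hx))
    · rw [Finset.sum_insert hnm, hsum, ← Finset.add_sum_erase U _ hvU, ← Finset.add_sum_erase (U.erase v) _ hcE,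
        ← hcv]
      ring

/-- Proof: for every set `U` of vertices that contains the children of its members there is a
matching `M ⊆ S`, all of whose edges have both ends in `U`, of weight `∑ u ∈ U, LL u`; strong
induction on the number of elements of `U`. Let `v ∈ U` be of maximal rank, so that its parent is not
in `U`. If `LL v = 0` use `U \ {v}`. Otherwise there is a child `c` with `s(c,v) ∈ S` and
`LL v = w s(c,v) - LL c` (`LL_rec`, `exists_eq_mx`); `U' = U \ {v, c}` contains the children of its
members; add the edge `s(c,v)` to the matching for `U'`. -/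
theorem exists_matching (hr : Rooted G par rk) (S : Finset (Sym2 V)) :
    ∃ M ⊆ S, IsMatch M ∧ ∑ e ∈ M, w e = ∑ u, LL par rk w S u := by
  obtain ⟨M, hMS, hM, -, hsum⟩ := FoM_aux (w := w) hr S _ Finset.univ rfl fun u _ c _ => Finset.mem_univ c
  exact ⟨M, hMS, hM, hsum⟩

end Pool.Agent.Lib.MP_7470b6_lc.For
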