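import Pool.Agent.Lib.MP_7470b6_lc.For.ForD

/-!
# Job FoR: finite forests can be rooted
-/

open Finset

namespace Pool.Agent.Lib.MP_7470b6_lc.For

/-- A finite acyclic graph with an edge has a vertex of degree one. Proof: take a path of maximal
length; a second neighbour of its last vertex is on the path (cycle) or extends it. -/
theorem exists_leaf {V : Type} [Fintype V] {G : SimpleGraph V} (hG : G.IsAcyclic) {a b : V}
    (hab : G.Adj a b) : ∃ v u, G.Adj v u ∧ ∀ u', G.Adj v u' → u' = u := by
  classical
  let P : ℕ → Prop := fun n => ∃ (x v : V) (p : G.Walk x v), p.IsPath ∧ p.length = n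
  have hP1 : P 1 := by
    refine ⟨a, b, SimpleGraph.Walk.cons hab SimpleGraph.Walk.nil, ?_, rfl⟩
    simp [SimpleGraph.Walk.cons_isPath_iff, hab.ne]
  have hbd : ∀ n, P n → n ≤ Fintype.card V := by
    rintro n ⟨x, v, p, hp, rfl⟩
    exact hp.length_lt.le
  obtain ⟨hM, hmax⟩ : P (Nat.findGreatest P (Fintype.card V)) ∧
      ∀ n, P n → n ≤ Nat.findGreatest P (Fintype.card V) :=
    ⟨Nat.findGreatest_spec (hbd 1 hP1) hP1, fun n hn => Nat.le_findGreatest (hbd n hn) hn⟩
  have hM1 : 1 ≤ Nat.findGreatest P (Fintype.card V) := hmax 1 hP1
  obtain ⟨x, v, p, hp, hlen⟩ := hM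
  have hnil : ¬ p.Nil := by
    intro h
    have := SimpleGraph.Walk.length_eq_zero_iff.2 h
    omega
  refine ⟨v, p.penultimate, (p.adj_penultimate hnil).symm, ?_⟩
  intro u' hu'
  by_cases hmem : u' ∈ p.support
  · exact hG.eq_penultimate_of_adj_end hp hu' hmem
  · exfalso
    have h1 : P (p.length + 1) := by
      refine ⟨x, u', p.concat hu', ?_, SimpleGraph.Walk.length_concat _ _⟩
      exact (SimpleGraph.Walk.concat_isPath_iff hu').2 ⟨hp, hmem⟩
    have := hmax _ h1
    omega

private theorem FoR_aux {V : Type} [Fintype V] (n : ℕ) : ∀ G : SimpleGraph V, G.IsAcyclic →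
    G.edgeSet.ncard = n → ∃ (par : V → Option V) (rk : V → ℕ), Rooted G par rk := by
  classical
  induction n using Nat.strong_induction_on with
  | _ n ih =>
    intro G hG hn
    by_cases he : ∃ a b, G.Adj a b
    · obtain ⟨a, b, hab⟩ := he
      obtain ⟨v, u, hvu, hleaf⟩ := exists_leaf hG hab
      have hlt : (G.deleteEdges {s(v, u)}).edgeSet.ncard < n := by
        rw [SimpleGraph.edgeSet_deleteEdges, ← hn]
        exact Set.ncard_sdiff_singleton_lt_of_mem hvu (Set.toFinite _)
      obtain ⟨par', rk', hr⟩ := ih _ hlt (G.deleteEdges {s(v, u)})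
        (hG.anti (SimpleGraph.deleteEdges_le _)) rfl
      have hadj : ∀ a b, (G.deleteEdges {s(v, u)}).Adj a b ↔ G.Adj a b ∧ s(a, b) ≠ s(v, u) := by
        intro a b
        rw [SimpleGraph.deleteEdges_adj, Set.mem_singleton_iff]
      have hv1 : ∀ a, ¬ (G.deleteEdges {s(v, u)}).Adj v a := by
        intro a h
        rw [hadj] at h
        exact h.2 (by rw [hleaf a h.1])
      have hv2 : ∀ a, ¬ (G.deleteEdges {s(v, u)}).Adj a v := fun a h => hv1 a h.symm
      refine ⟨fun w => if w = v then some u else par' w, fun w => if w = v then 0 else rk' w + 1, ?_, ?_, ?_⟩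
      · intro w z hwz
        by_cases hw : w = v
        · simp only [hw, if_true] at hwz
          rw [hw, ← Option.some_injective _ hwz]
          exact hvu
        · simp only [hw, if_false] at hwz
          exact ((hadj _ _).1 (hr.adj w z hwz)).1
      · intro w z hwz
        by_cases hw : w = v
        · simp only [hw, if_true] at hwz
          have hz : z = u := (Option.some_injective _ hwz).symm
          simp only [hw, if_true, hz, hvu.ne', if_false]
          exact Nat.succ_pos _
        · simp only [hw, if_false] at hwz
          have hz : z ≠ v := by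
            rintro rfl
            exact hv2 w (hr.adj w _ hwz)
          simp only [hw, hz, if_false]
          have := hr.rank w z hwz
          omega
      · intro a b hab
        by_cases h1 : s(a, b) = s(v, u)
        · rcases Sym2.eq_iff.1 h1 with ⟨rfl, rfl⟩ | ⟨rfl, rfl⟩
          · left
            simp
          · right
            simp
        · have h2 : (G.deleteEdges {s(v, u)}).Adj a b := (hadj a b).2 ⟨hab, h1⟩
          have ha : a ≠ v := by
            rintro rfl
            exact hv1 b h2
          have hb : b ≠ v := by
            rintro rfl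
            exact hv2 a h2
          simp only [ha, hb, if_false]
          exact hr.cover a b h2
    · refine ⟨fun _ => none, fun _ => 0, ?_, ?_, ?_⟩
      · intro v u h
        exact absurd h (by simp)
      · intro v u h
        exact absurd h (by simp)
      · intro u v h
        exact absurd ⟨u, v, h⟩ he

/-- Proof: induction on the number of edges. If there is an edge let `v` be a leaf with neighbour
`u`, `G'` the graph without the edge `s(v,u)` (acyclic, `SimpleGraph.IsAcyclic.anti` or similar), and
`par'`, `rk'` for `G'`; put `par v = some u`, `par = par'` elsewhere, `rk v = 0` and `rk = rk' + 1`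
elsewhere (`v` is isolated in `G'`, so it is nobody's parent there). -/
theorem exists_rooted {V : Type} [Fintype V] {G : SimpleGraph V} (hG : G.IsAcyclic) :
    ∃ (par : V → Option V) (rk : V → ℕ), Rooted G par rk :=
  FoR_aux _ G hG rfl

end Pool.Agent.Lib.MP_7470b6_lc.For
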