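import Pool.Agent.Lib.MP_7470b6_lc.For.ForD

/-!
# Job FoW: duality
-/

open Finset

namespace Pool.Agent.Lib.MP_7470b6_lc.For

open Pool.Agent.Lib.MP_7470b6_lc.Crs

/-- The polytope is compact (convex hull of a finite set). -/
theorem PF_compact {V : Type} [Fintype V] (F : Finset (Sym2 V)) : IsCompact (PF F) := by
  classical
  unfold PF
  apply Set.Finite.isCompact_convexHull
  apply Set.Finite.subset ((Finset.finite_toSet (F.powerset)).image (fun M => (chi M : Sym2 V → ℝ)))
  rintro y ⟨M, hM, -, rfl⟩
  exact ⟨M, Finset.mem_coe.mpr (Finset.mem_powerset.mpr hM), rfl⟩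

private theorem FoW_chi_mem {V : Type} {F M : Finset (Sym2 V)} (hM : M ⊆ F) (h : IsMatch M) : (chi M : Sym2 V → ℝ) ∈ PF F :=
  subset_convexHull ℝ _ ⟨M, hM, h, rfl⟩

/-- the expectation of a family of vectors -/
private noncomputable def FoW_T {V : Type} [Fintype V] (G : SimpleGraph V) (x : Sym2 V → ℝ) :
    (Finset (Sym2 V) → Sym2 V → ℝ) →ₗ[ℝ] (Sym2 V → ℝ) :=
  ∑ S ∈ (edges G).powerset, prob G x S • LinearMap.proj S

private theorem FoW_T_apply {V : Type} [Fintype V] (G : SimpleGraph V) (x : Sym2 V → ℝ)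
    (Z : Finset (Sym2 V) → Sym2 V → ℝ) (e : Sym2 V) :
    FoW_T G x Z e = ∑ S ∈ (edges G).powerset, prob G x S * Z S e := by
  unfold FoW_T
  rw [LinearMap.sum_apply, Finset.sum_apply]
  refine Finset.sum_congr rfl fun S _ => ?_
  rw [LinearMap.smul_apply, LinearMap.proj_apply, Pi.smul_apply, smul_eq_mul]

open Classical in
private theorem FoW_func {V : Type} [Fintype V] (f : (Sym2 V → ℝ) →L[ℝ] ℝ) (y : Sym2 V → ℝ) :
    f y = ∑ e, y e * f (Pi.single e 1) := by
  conv_lhs => rw [pi_eq_sum_univ' y]
  rw [map_sum]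
  refine Finset.sum_congr rfl fun e _ => ?_
  rw [map_smul, smul_eq_mul]

/-- If for all weights there are matchings `M S ⊆ S` whose expected weight is at least
`c ∑ w e x e`, then there is a `c`-balanced scheme. Proof: the set `K` of the vectors
`e ↦ ∑ S ⊆ edges G, prob G x S * Z S e` with `Z S ∈ PF S` is convex and compact (continuous image
of the product of the compact sets `PF S`). If it is disjoint from the closed convex set
`{y | ∀ e ∈ edges G, c * x e ≤ y e}` then `geometric_hahn_banach_compact_closed` gives a linear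
functional `φ` with `sup φ(K) < inf`; `w e = φ (Pi.single e 1)` is nonnegative for `e ∈ edges G` and
zero for `e ∉ edges G` (the infimum is finite), which contradicts the hypothesis (put the vector of
the `chi (M S)` in `K`). So there are `Z S ∈ PF S` with `c * x e ≤ ∑ S, prob * Z S e`;
`exists_scheme`, and `probPresent = x e` by `ev_mem`. -/
theorem exists_of_weights {V : Type} [Fintype V] {G : SimpleGraph V} {x : Sym2 V → ℝ}
    (hx : ∀ e ∈ edges G, 0 ≤ x e ∧ x e ≤ 1) {c : ℝ}
    (h : ∀ w : Sym2 V → ℝ, (∀ e, 0 ≤ w e) →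
      ∃ M : Finset (Sym2 V) → Finset (Sym2 V), (∀ S ⊆ edges G, M S ⊆ S ∧ IsMatch (M S)) ∧
        c * ∑ e ∈ edges G, w e * x e ≤ ∑ S ∈ (edges G).powerset, prob G x S * ∑ e ∈ M S, w e) :
    ∃ μ, IsScheme G μ ∧ Balanced G x μ c := by
  classical
  -- the two convex sets
  obtain ⟨D, hD⟩ : ∃ D : Set (Finset (Sym2 V) → Sym2 V → ℝ), D = Set.pi Set.univ (fun S => PF S) := ⟨_, rfl⟩
  obtain ⟨t, ht⟩ : ∃ t : Set (Sym2 V → ℝ), t = {y | ∀ e ∈ edges G, c * x e ≤ y e} := ⟨_, rfl⟩
  have hDc : IsCompact D := by
    rw [hD]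
    exact isCompact_univ_pi fun S => PF_compact S
  have hDv : Convex ℝ D := by
    rw [hD]
    exact convex_pi fun S _ => convex_convexHull ℝ _
  have hcont : Continuous (FoW_T G x) := LinearMap.continuous_of_finiteDimensional _
  have hKc : IsCompact (FoW_T G x '' D) := hDc.image hcont
  have hKv : Convex ℝ (FoW_T G x '' D) := hDv.linear_image _
  have htc : IsClosed t := by
    rw [ht]
    have : {y : Sym2 V → ℝ | ∀ e ∈ edges G, c * x e ≤ y e} = ⋂ e ∈ edges G, {y | c * x e ≤ y e} := by
      ext y
      simp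
    rw [this]
    exact isClosed_biInter fun e _ => isClosed_le continuous_const (continuous_apply e)
  have htv : Convex ℝ t := by
    rw [ht]
    intro y hy z hz a b ha hb hab e he
    have h1 := hy e he
    have h2 := hz e he
    simp only [Pi.add_apply, Pi.smul_apply, smul_eq_mul]
    calc c * x e = a * (c * x e) + b * (c * x e) := by rw [← add_mul, hab, one_mul]
      _ ≤ a * y e + b * z e := add_le_add (mul_le_mul_of_nonneg_left h1 ha) (mul_le_mul_of_nonneg_left h2 hb)
  have hmeet : ∃ Z ∈ D, ∀ e ∈ edges G, c * x e ≤ ∑ S ∈ (edges G).powerset, prob G x S * Z S e := by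
    by_contra hcon
    have hdisj : Disjoint (FoW_T G x '' D) t := by
      rw [Set.disjoint_left]
      rintro _ ⟨Z, hZ, rfl⟩ hy
      apply hcon
      refine ⟨Z, hZ, fun e he => ?_⟩
      rw [ht] at hy
      have := hy e he
      rwa [FoW_T_apply] at this
    obtain ⟨f, u, v, hfu, huv, hfv⟩ := geometric_hahn_banach_compact_closed hKv hKc htv htc hdisj
    have hb0 : (fun e => c * x e) ∈ t := by
      rw [ht]
      exact fun e _ => le_rfl
    -- the weights
    have hray : ∀ e : Sym2 V, ∀ l : ℝ, (e ∈ edges G → 0 ≤ l) →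
        v < f (fun e => c * x e) + l * f (Pi.single e 1) := by
      intro e l hl
      have h1 : ((fun e => c * x e) + l • (Pi.single e 1 : Sym2 V → ℝ)) ∈ t := by
        rw [ht]
        intro e' he'
        rw [Pi.add_apply, Pi.smul_apply, Pi.single_apply, smul_eq_mul]
        by_cases h2 : e' = e
        · subst h2
          rw [if_pos rfl, mul_one]
          linarith [hl he']
        · rw [if_neg h2, mul_zero, add_zero]
      have h2 := hfv _ h1
      rwa [map_add, map_smul, smul_eq_mul] at h2
    have hw0 : ∀ e ∈ edges G, 0 ≤ f (Pi.single e 1) := by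
      intro e he
      by_contra hneg
      push Not at hneg
      have h1 := hray e ((v - f (fun e => c * x e)) / f (Pi.single e 1)) (fun _ => by
        have h2 := hfv _ hb0
        exact div_nonneg_of_nonpos (by linarith) hneg.le)
      rw [div_mul_cancel₀ _ hneg.ne] at h1
      linarith
    have hw1 : ∀ e, e ∉ edges G → f (Pi.single e 1) = 0 := by
      intro e he
      by_contra hne
      have h1 := hray e ((v - f (fun e => c * x e)) / f (Pi.single e 1)) (fun h => absurd h he)
      rw [div_mul_cancel₀ _ hne] at h1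
      linarith
    have hwn : ∀ e, 0 ≤ f (Pi.single e 1) := by
      intro e
      by_cases he : e ∈ edges G
      · exact hw0 e he
      · rw [hw1 e he]
    obtain ⟨M, hM, hMw⟩ := h (fun e => f (Pi.single e 1)) hwn
    obtain ⟨Z, hZ⟩ : ∃ Z : Finset (Sym2 V) → Sym2 V → ℝ,
        Z = fun S => if S ⊆ edges G then chi (M S) else chi ∅ := ⟨_, rfl⟩
    have hZD : Z ∈ D := by
      rw [hD, Set.mem_univ_pi]
      intro S
      rw [hZ]
      simp only
      by_cases hS : S ⊆ edges G
      · rw [if_pos hS]
        exact FoW_chi_mem (hM S hS).1 (hM S hS).2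
      · rw [if_neg hS]
        exact FoW_chi_mem (Finset.empty_subset _) fun e he => absurd he (Finset.notMem_empty e)
    have h1 := hfu _ ⟨Z, hZD, rfl⟩
    have h2 := hfv _ hb0
    rw [FoW_func f] at h1 h2
    have h3 : ∑ e, (c * x e) * f (Pi.single e 1) = c * ∑ e ∈ edges G, f (Pi.single e 1) * x e := by
      rw [Finset.mul_sum, ← Finset.sum_subset (Finset.subset_univ (edges G))]
      · exact Finset.sum_congr rfl fun e _ => by ring
      · intro e _ he
        rw [hw1 e he, mul_zero]
    have h4 : ∑ e, FoW_T G x Z e * f (Pi.single e 1) =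
        ∑ S ∈ (edges G).powerset, prob G x S * ∑ e ∈ M S, f (Pi.single e 1) := by
      simp only [FoW_T_apply, Finset.sum_mul]
      rw [Finset.sum_comm]
      refine Finset.sum_congr rfl fun S hS => ?_
      rw [Finset.mem_powerset] at hS
      have h5 : ∀ e, Z S e = if e ∈ M S then 1 else 0 := by
        intro e
        rw [hZ]
        simp only [if_pos hS]
        rfl
      simp only [h5, mul_assoc, ite_mul, one_mul, zero_mul, ← Finset.mul_sum]
      rw [Finset.sum_ite_mem, Finset.univ_inter]
    rw [h3] at h2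
    rw [h4] at h1
    linarith
  obtain ⟨Z, hZD, hZc⟩ := hmeet
  rw [hD, Set.mem_univ_pi] at hZD
  obtain ⟨μ, hμ, hμZ⟩ := exists_scheme (G := G) (Z := Z) fun S _ => hZD S
  refine ⟨μ, hμ, fun e he hxe => ?_⟩
  have hpres : probPresent G x e = x e := by
    have h1 := ev_mem he x
    rw [← h1]
    unfold probPresent ev prob
    refine Finset.sum_congr rfl fun S hS => ?_
    by_cases h : e ∈ S
    · simp only [h, if_true, mul_one]
    · simp [h]
  have hin : probIn G x μ e = ∑ S ∈ (edges G).powerset, prob G x S * Z S e := by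
    unfold probIn
    refine Finset.sum_congr rfl fun S hS => ?_
    rw [← hμZ S (Finset.mem_powerset.mp hS) e]
  rw [hin, hpres, le_div_iff₀ hxe]
  exact hZc e he

end Pool.Agent.Lib.MP_7470b6_lc.For
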