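import Pool.Agent.Lib.MP_7470b6_lc.For.FoE
import Pool.Agent.Lib.MP_7470b6_lc.For.FoM
import Pool.Agent.Lib.MP_7470b6_lc.For.FoR
import Pool.Agent.Lib.MP_7470b6_lc.For.FoW

/-!
# Forests: the main theorem
-/

open Finset

namespace Pool.Agent.Lib.MP_7470b6_lc.For

open Pool.Agent.Lib.MP_7470b6_lc.Crs

theorem poly_mem {V : Type} [Fintype V] {G : SimpleGraph V} {x : Sym2 V → ℝ}
    (hx : x ∈ matchingPolytope G) (e : Sym2 V) (he : e ∈ edges G) : 0 ≤ x e ∧ x e ≤ 1 := by
  classical
  have hx' : x ∈ PF (edges G) := hx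
  refine ⟨PF_nonneg hx' e, ?_⟩
  induction e using Sym2.ind with
  | _ u v =>
  have h := PF_vertex hx' u
  refine le_trans ?_ h
  refine Finset.single_le_sum (f := x) (fun f _ => PF_nonneg hx' f) ?_
  simp [he]

theorem main_forest {V : Type} [Fintype V] (G : SimpleGraph V) (hG : G.IsAcyclic)
    (x : Sym2 V → ℝ) (hx : x ∈ matchingPolytope G) :
    ∃ μ, IsScheme G μ ∧ Balanced G x μ 0.585 := by
  classical
  obtain ⟨par, rk, hr⟩ := exists_rooted hG
  have hx01 := poly_mem hx
  refine exists_of_weights hx01 ?_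
  intro w hw
  choose M hMS hM hMw using fun S : Finset (Sym2 V) => exists_matching (w := w) hr S
  refine ⟨M, fun S _ => ⟨hMS S, hM S⟩, ?_⟩
  have hev : ∑ S ∈ (edges G).powerset, prob G x S * ∑ e ∈ M S, w e =
      ∑ u, ev (edges G) x (fun S => LL par rk w S u) := by
    rw [← ev_sum]
    unfold ev prob
    refine Finset.sum_congr rfl fun S _ => ?_
    rw [hMw S]
  rw [hev]
  have hyp : ∀ u c, par c = some u → yp par x c = x s(c, u) := by
    intro u c h
    simp [yp, h]
  have hyp0 : ∀ c, par c = none → yp par x c = 0 := by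
    intro c h
    simp [yp, h]
  have h1 : ∑ u, ev (edges G) x (fun S => LL par rk w S u) =
      ∑ u, (1 - be (yp par x u)) * ev (edges G) x (fun S => LL par rk w S u) +
        ∑ u, be (yp par x u) * ev (edges G) x (fun S => LL par rk w S u) := by
    rw [← Finset.sum_add_distrib]
    refine Finset.sum_congr rfl fun u _ => ?_
    ring
  have h2 : ∑ u, be (yp par x u) * ev (edges G) x (fun S => LL par rk w S u) =
      ∑ u, ∑ c ∈ ch par u, be (x s(c, u)) * ev (edges G) x (fun S => LL par rk w S c) := by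
    rw [sum_nonroot (par := par)]
    · refine Finset.sum_congr rfl fun u _ => Finset.sum_congr rfl fun c hc => ?_
      rw [hyp u c (mem_ch.mp hc)]
    · intro v hv
      rw [hyp0 v hv]
      simp [be]
  have h3 : ∑ u, ∑ c ∈ ch par u, Th (x s(c, u)) *
        ev (edges G) x (fun S => max 0 (w s(c, u) - LL par rk w S c)) ≤
      ∑ u, (1 - be (yp par x u)) * ev (edges G) x (fun S => LL par rk w S u) :=
    Finset.sum_le_sum fun u _ => exp_star hr hx hw u
  have h4 : (0.585 : ℝ) * ∑ e ∈ edges G, w e * x e ≤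
      ∑ u, ∑ c ∈ ch par u, (Th (x s(c, u)) *
        ev (edges G) x (fun S => max 0 (w s(c, u) - LL par rk w S c)) +
        be (x s(c, u)) * ev (edges G) x (fun S => LL par rk w S c)) := by
    rw [sum_edges hr, Finset.mul_sum]
    refine Finset.sum_le_sum fun u _ => ?_
    rw [Finset.mul_sum]
    refine Finset.sum_le_sum fun c hc => ?_
    have hcu := mem_ch.mp hc
    have he : s(c, u) ∈ edges G := by
      simp only [edges, Finset.mem_filter, Finset.mem_univ, true_and, SimpleGraph.mem_edgeSet]
      exact hr.adj c u hcu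
    have hxe := hx01 _ he
    have hpc := per_child hxe.1 hxe.2 (hw s(c, u)) (exp_child hr hx hw hcu)
      (b := ev (edges G) x (fun S => LL par rk w S c)) ?_ ?_
    · rw [mul_comm (w s(c, u))]
      exact hpc
    · refine le_trans (le_of_eq (ev_const (edges G) x 0).symm) ?_
      exact ev_mono hx01 fun S _ => LL_nonneg S c
    · rw [← ev_add]
      refine le_trans (le_of_eq (ev_const (edges G) x (w s(c, u))).symm) ?_
      refine ev_mono hx01 fun S _ => ?_
      have := le_max_right 0 (w s(c, u) - LL par rk w S c)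
      linarith
  rw [h1, h2]
  simp only [Finset.sum_add_distrib] at h4
  linarith

end Pool.Agent.Lib.MP_7470b6_lc.For
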