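import Pool.Agent.Lib.MP_7470b6_lc.For.FoX

/-!
# Job FoA: the recursion for the gains
-/

open Finset

namespace Pool.Agent.Lib.MP_7470b6_lc.For

open Pool.Agent.Lib.MP_7470b6_lc.Crs

variable {V : Type} [Fintype V] {G : SimpleGraph V} {par : V → Option V} {rk : V → ℕ}
  {w : Sym2 V → ℝ}

private theorem FoA_mem {S : Finset (Sym2 V)} {u c : V} (h : c ∈ pc par S u) :
    par c = some u ∧ s(c, u) ∈ S := by
  classical
  unfold pc ch at h
  rw [Finset.mem_filter, Finset.mem_filter] at h
  exact ⟨h.1.2, h.2⟩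

private theorem FoA_Lf (hr : Rooted G par rk) (S : Finset (Sym2 V)) (n : ℕ) :
    ∀ (m : ℕ) (u : V), rk u < n → rk u < m → Lf par w S n u = Lf par w S m u := by
  induction n with
  | zero => intro m u h; exact absurd h (Nat.not_lt_zero _)
  | succ n ih =>
    intro m u hn hm
    obtain ⟨m, rfl⟩ := Nat.exists_eq_succ_of_ne_zero (show m ≠ 0 by omega)
    show mx (pc par S u) (fun c => w s(c, u) - Lf par w S n c) =
      mx (pc par S u) (fun c => w s(c, u) - Lf par w S m c)
    refine mx_congr fun c hc => ?_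
    have h1 := hr.rank c u (FoA_mem hc).1
    rw [ih m c (by omega) (by omega)]

/-- For `n, m > rk u` we have `Lf n u = Lf m u` (induction), hence the recursion. -/
theorem LL_rec (hr : Rooted G par rk) (S : Finset (Sym2 V)) (u : V) :
    LL par rk w S u = mx (pc par S u) (fun c => w s(c, u) - LL par rk w S c) := by
  show mx (pc par S u) (fun c => w s(c, u) - Lf par w S (rk u) c) = _
  refine mx_congr fun c hc => ?_
  have h1 := hr.rank c u (FoA_mem hc).1
  unfold LL
  rw [FoA_Lf hr S (rk u) (rk c + 1) c h1 (Nat.lt_succ_self _)]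

theorem LL_nonneg (S : Finset (Sym2 V)) (u : V) : 0 ≤ LL par rk w S u :=
  mx_nonneg _ _

theorem LL_zero (hr : Rooted G par rk) {S : Finset (Sym2 V)} {u : V}
    (h : ∀ c, par c = some u → s(c, u) ∉ S) : LL par rk w S u = 0 := by
  have h1 : pc par S u = ∅ := by
    rw [Finset.eq_empty_iff_forall_notMem]
    intro c hc
    exact h c (FoA_mem hc).1 (FoA_mem hc).2
  rw [LL_rec hr, h1, mx_empty]

private theorem FoA_dep (hr : Rooted G par rk) {S S' : Finset (Sym2 V)} (n : ℕ) : ∀ u : V, rk u < n →
    (∀ c d, par c = some d → rk d ≤ rk u → (s(c, d) ∈ S ↔ s(c, d) ∈ S')) →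
    LL par rk w S u = LL par rk w S' u := by
  classical
  induction n with
  | zero => intro u h; exact absurd h (Nat.not_lt_zero _)
  | succ n ih =>
    intro u hu h
    have h1 : pc par S u = pc par S' u := by
      unfold pc
      refine Finset.filter_congr fun c hc => ?_
      unfold ch at hc
      exact h c u (Finset.mem_filter.1 hc).2 le_rfl
    rw [LL_rec hr, LL_rec hr, h1]
    refine mx_congr fun c hc => ?_
    have h2 := hr.rank c u (FoA_mem hc).1
    rw [ih c (by omega) fun c' d hcd hd => h c' d hcd (by omega)]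

/-- The gain of `u` only depends on the edges `s(c,d)`, `par c = some d`, with `rk d ≤ rk u`. -/
theorem LL_dep (hr : Rooted G par rk) {S S' : Finset (Sym2 V)} {u : V}
    (h : ∀ c d, par c = some d → rk d ≤ rk u → (s(c, d) ∈ S ↔ s(c, d) ∈ S')) :
    LL par rk w S u = LL par rk w S' u :=
  FoA_dep hr _ u (Nat.lt_succ_self _) h

end Pool.Agent.Lib.MP_7470b6_lc.For
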