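import Pool.Agent.Lib.MP_7470b6_lc.For.ForD

/-!
# Job FoI: expectations, splitting of the index set
-/

open Finset

namespace Pool.Agent.Lib.MP_7470b6_lc.For

open Pool.Agent.Lib.MP_7470b6_lc.Crs

/-- Induction on `B` with `ev_insert`. -/
theorem ev_union {ι : Type*} [DecidableEq ι] {B C : Finset ι} (hBC : Disjoint B C) (p : ι → ℝ)
    (f : Finset ι → ℝ) :
    ev (B ∪ C) p f = ev C p (fun S => ev B p (fun T => f (T ∪ S))) := by
  induction B using Finset.induction_on generalizing f with
  | empty =>
    simp [ev_empty]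
  | insert i B hi ih =>
    rw [Finset.disjoint_insert_left] at hBC
    obtain ⟨hiC, hBC'⟩ := hBC
    have hiBC : i ∉ B ∪ C := by simp [hi, hiC]
    rw [Finset.insert_union, ev_insert hiBC, ih hBC', ih hBC', ← ev_const_mul, ← ev_const_mul,
      ← ev_add]
    refine ev_congr fun S _ => ?_
    rw [ev_insert hi]
    simp only [Finset.insert_union]

/-- Induction on `B` with `ev_insert`. -/
theorem ev_image {ι κ : Type*} [DecidableEq ι] [DecidableEq κ] {B : Finset ι} {g : ι → κ}
    (hg : Set.InjOn g (B : Set ι)) (p : κ → ℝ) (f : Finset κ → ℝ) :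
    ev (B.image g) p f = ev B (fun i => p (g i)) (fun T => f (T.image g)) := by
  induction B using Finset.induction_on generalizing f with
  | empty =>
    simp [ev_empty]
  | insert i B hi ih =>
    have hgB : Set.InjOn g (B : Set ι) := hg.mono (by simp)
    have hgi : g i ∉ B.image g := by
      intro h
      obtain ⟨j, hj, hji⟩ := Finset.mem_image.mp h
      have : j = i := hg (by simp [hj]) (by simp) hji
      exact hi (this ▸ hj)
    rw [Finset.image_insert, ev_insert hgi, ev_insert hi, ih hgB, ih hgB]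
    simp only [Finset.image_insert]

/-- Union bound: the probability that no member of `B` is present. -/
theorem ev_none {ι : Type*} [DecidableEq ι] {A B : Finset ι} (hBA : B ⊆ A) {p : ι → ℝ}
    (hp : ∀ i ∈ A, 0 ≤ p i ∧ p i ≤ 1) :
    1 - ∑ i ∈ B, p i ≤ ev A p (fun T => if Disjoint B T then 1 else 0) := by
  have h1 : ev A p (fun T => 1 - ∑ i ∈ B, if i ∈ T then (1 : ℝ) else 0) =
      1 - ∑ i ∈ B, p i := by
    rw [ev_sub, ev_const, ev_sum]
    congr 1
    exact Finset.sum_congr rfl fun i hi => ev_mem (hBA hi) p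
  rw [← h1]
  refine ev_mono hp fun T _ => ?_
  by_cases h : Disjoint B T
  · simp only [h, if_true]
    have : 0 ≤ ∑ i ∈ B, if i ∈ T then (1 : ℝ) else 0 :=
      Finset.sum_nonneg fun i _ => by split_ifs <;> norm_num
    linarith
  · simp only [h, if_false]
    obtain ⟨i, hiB, hiT⟩ := Finset.not_disjoint_iff.mp h
    have : (1 : ℝ) ≤ ∑ i ∈ B, if i ∈ T then (1 : ℝ) else 0 := by
      refine le_trans ?_ (Finset.single_le_sum (f := fun i => if i ∈ T then (1 : ℝ) else 0)
        (fun j _ => ?_) hiB)
      · simp [hiT]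
      · split_ifs <;> norm_num
    linarith

end Pool.Agent.Lib.MP_7470b6_lc.For
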