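import Pool.Agent.Lib.MP_7470b6_lc.For.ForD

/-!
# Job FoK: sums over the children
-/

open Finset

namespace Pool.Agent.Lib.MP_7470b6_lc.For

open Pool.Agent.Lib.MP_7470b6_lc.Crs

variable {V : Type} [Fintype V] {G : SimpleGraph V} {par : V → Option V} {rk : V → ℕ}

theorem mem_ch {u c : V} : c ∈ ch par u ↔ par c = some u := by
  simp [ch]

theorem sum_nonroot (f : V → ℝ) (hf : ∀ v, par v = none → f v = 0) :
    ∑ v, f v = ∑ u, ∑ c ∈ ch par u, f c := by
  classical
  have h1 : ∀ u, ∑ c ∈ ch par u, f c = ∑ c, if par c = some u then f c else 0 := by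
    intro u
    unfold ch
    rw [Finset.sum_filter]
  simp only [h1]
  rw [Finset.sum_comm]
  refine Finset.sum_congr rfl fun c _ => ?_
  cases h : par c with
  | none => simp [hf c h]
  | some p => simp

/-- Injectivity of the map from the children of `u` to edges. -/
theorem inj_ch (u : V) : Set.InjOn (fun c : V => s(c, u)) (ch par u : Set V) := by
  intro a _ b _ h
  simpa using Sym2.congr_left.mp h

theorem sum_edges (hr : Rooted G par rk) (g : Sym2 V → ℝ) :
    ∑ e ∈ edges G, g e = ∑ u, ∑ c ∈ ch par u, g s(c, u) := by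
  classical
  have h1 : edges G = Finset.univ.biUnion (fun u => (ch par u).image (fun c => s(c, u))) := by
    ext e
    induction e using Sym2.ind with
    | _ a b =>
    simp only [edges, Finset.mem_filter, Finset.mem_univ, true_and, SimpleGraph.mem_edgeSet,
      Finset.mem_biUnion, Finset.mem_image, mem_ch]
    constructor
    · intro h
      rcases hr.cover a b h with h | h
      · exact ⟨b, a, h, rfl⟩
      · exact ⟨a, b, h, Sym2.eq_swap⟩
    · rintro ⟨u, c, hc, he⟩
      have h2 := hr.adj c u hc
      rw [← SimpleGraph.mem_edgeSet, ← he]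
      exact h2
  rw [h1, Finset.sum_biUnion]
  · refine Finset.sum_congr rfl fun u _ => ?_
    rw [Finset.sum_image]
    exact fun a ha b hb h => inj_ch u ha hb h
  · intro u _ v _ huv
    simp only [Function.onFun]
    rw [Finset.disjoint_left]
    intro e he he'
    obtain ⟨c, hc, rfl⟩ := Finset.mem_image.mp he
    obtain ⟨d, hd, hde⟩ := Finset.mem_image.mp he'
    rw [mem_ch] at hc hd
    rcases Sym2.eq_iff.mp hde with ⟨rfl, rfl⟩ | ⟨rfl, rfl⟩
    · exact huv rfl
    · have h3 := hr.rank _ _ hc
      have h4 := hr.rank _ _ hd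
      omega

/-- Vertex sums: the children edges and the parent edge. `PF_vertex` for the vertex `u`. -/
theorem vertex_sum (hr : Rooted G par rk) {x : Sym2 V → ℝ} (hx : x ∈ matchingPolytope G) (u : V) :
    yp par x u + ∑ c ∈ ch par u, x s(c, u) ≤ 1 := by
  classical
  have hx' : x ∈ PF (edges G) := hx
  have h := PF_vertex hx' u
  refine le_trans ?_ h
  have hch : ∑ c ∈ ch par u, x s(c, u) = ∑ e ∈ (ch par u).image (fun c => s(c, u)), x e := by
    rw [Finset.sum_image]
    exact fun a ha b hb h => inj_ch u ha hb h
  have hsub : (ch par u).image (fun c => s(c, u)) ⊆ (edges G).filter (fun e => u ∈ e) := by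
    intro e he
    obtain ⟨c, hc, rfl⟩ := Finset.mem_image.mp he
    rw [mem_ch] at hc
    simp only [edges, Finset.mem_filter, Finset.mem_univ, true_and, SimpleGraph.mem_edgeSet]
    exact ⟨hr.adj c u hc, Sym2.mem_mk_right c u⟩
  rw [hch]
  cases hp : par u with
  | none =>
    have : yp par x u = 0 := by simp [yp, hp]
    rw [this, zero_add]
    refine Finset.sum_le_sum_of_subset_of_nonneg ?_ fun e _ _ => PF_nonneg hx' e
    convert hsub
  | some p =>
    have h2 : yp par x u = x s(u, p) := by simp [yp, hp]
    have h3 : s(u, p) ∉ (ch par u).image (fun c => s(c, u)) := by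
      intro he
      obtain ⟨c, hc, hce⟩ := Finset.mem_image.mp he
      rw [mem_ch] at hc
      have h4 : c = p := by
        rcases Sym2.eq_iff.mp hce with ⟨rfl, rfl⟩ | ⟨rfl, -⟩
        · rfl
        · rfl
      subst h4
      have h5 := hr.rank _ _ hc
      have h6 := hr.rank _ _ hp
      omega
    rw [h2, ← Finset.sum_insert h3]
    refine Finset.sum_le_sum_of_subset_of_nonneg ?_ fun e _ _ => PF_nonneg hx' e
    intro e he
    rcases Finset.mem_insert.mp he with rfl | he
    · simp only [edges, Finset.mem_filter, Finset.mem_univ, true_and, SimpleGraph.mem_edgeSet]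
      exact ⟨hr.adj u p hp, Sym2.mem_mk_left u p⟩
    · have := hsub he
      simpa using this

theorem yp_nonneg {x : Sym2 V → ℝ} (hx : x ∈ matchingPolytope G) (u : V) : 0 ≤ yp par x u := by
  have hx' : x ∈ PF (edges G) := hx
  unfold yp
  cases h : par u with
  | none => simp
  | some p => exact PF_nonneg hx' _

end Pool.Agent.Lib.MP_7470b6_lc.For
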