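import Pool.Agent.Lib.MP_7470b6_lc.For.FoN

/-!
# Job FoP: the condition of the star lemma
-/

open Finset

namespace Pool.Agent.Lib.MP_7470b6_lc.For

/-- `log` inequality. -/
theorem one_sub_le_exp {p : ℝ} (h0 : 0 ≤ p) (h1 : p ≤ 1) :
    1 - p ≤ Real.exp (-(p + p ^ 2 / 2)) := by
  rcases eq_or_lt_of_le h1 with h | h
  · rw [h]
    have := Real.exp_pos (-(1 + 1 ^ 2 / 2 : ℝ))
    linarith
  · have habs : |p| < 1 := by rw [abs_of_nonneg h0]; exact h
    have hs := Real.hasSum_pow_div_log_of_abs_lt_one habs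
    have hle := sum_le_hasSum (Finset.range 2) (fun n _ => by positivity) hs
    rw [Finset.sum_range_succ, Finset.sum_range_one] at hle
    have hpos : 0 < 1 - p := by linarith
    rw [← Real.log_le_log_iff hpos (Real.exp_pos _), Real.log_exp]
    norm_num at hle
    linarith

private theorem fop_exp3 {a b c x y z : ℝ} (ha : 0 ≤ a) (hb : 0 ≤ b) (hc : 0 ≤ c) (h : a + b + c = 1) :
    Real.exp (a * x + b * y + c * z) ≤ a * Real.exp x + b * Real.exp y + c * Real.exp z := by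
  have key := convexOn_exp.map_sum_le (t := (Finset.univ : Finset (Fin 3))) (w := ![a, b, c]) (p := ![x, y, z])
    (by intro i _; fin_cases i <;> simp [ha, hb, hc]) (by simp [Fin.sum_univ_three, h]) (by intro i _; simp)
  simpa [Fin.sum_univ_three, smul_eq_mul] using key

/-- Proof: let `s₁ = ∑ p i`, `s₂ = ∑ (p i)^2`, `t = 1 - y`; then `s₁ ≤ t`, `s₂ ≤ t s₁`, and
`∏ (1 - p i) ≤ exp (-(s₁ + s₂/2))`. The point `(s₁, s₂)` is the convex combination of `(0,0)`, `(t,0)`,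
`(t,t^2)` with weights `1 - s₁/t`, `s₁/t - s₂/t^2`, `s₂/t^2`, and `1 - exp (-(s₁ + s₂/2))` is concave;
`num_one`, `num_two`. The case `t = 0` is trivial (all `p i = 0`). -/
theorem num_star {α : Type*} (B : Finset α) (p : α → ℝ) (hp : ∀ i ∈ B, 0 ≤ p i) {y : ℝ}
    (h0 : 0 ≤ y) (h1 : y ≤ 1) (hs : ∑ i ∈ B, p i ≤ 1 - y) :
    ∑ i ∈ B, Th (p i) ≤ (1 - be y) * (1 - ∏ i ∈ B, (1 - p i)) := by
  have hpt : ∀ i ∈ B, p i ≤ 1 - y := fun i hi =>
    (Finset.single_le_sum (f := p) (fun j hj => hp j hj) hi).trans hs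
  have hp1 : ∀ i ∈ B, p i ≤ 1 := fun i hi => (hpt i hi).trans (by linarith)
  obtain ⟨hb0, hb1⟩ := be_mem h0 h1
  have hTh : ∑ i ∈ B, Th (p i) = 0.585 * ∑ i ∈ B, p i + 0.17 * ∑ i ∈ B, p i ^ 2 := by
    unfold Th
    rw [Finset.sum_add_distrib, Finset.mul_sum, Finset.mul_sum]
  have hprod : ∏ i ∈ B, (1 - p i) ≤ Real.exp (-((∑ i ∈ B, p i) + (∑ i ∈ B, p i ^ 2) / 2)) := by
    have e1 : -((∑ i ∈ B, p i) + (∑ i ∈ B, p i ^ 2) / 2) = ∑ i ∈ B, -(p i + p i ^ 2 / 2) := by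
      rw [Finset.sum_neg_distrib, Finset.sum_add_distrib, Finset.sum_div]
    rw [e1, Real.exp_sum]
    exact Finset.prod_le_prod (fun i hi => by linarith [hp1 i hi]) (fun i hi => one_sub_le_exp (hp i hi) (hp1 i hi))
  have hs1 : 0 ≤ ∑ i ∈ B, p i := Finset.sum_nonneg hp
  have hs2 : 0 ≤ ∑ i ∈ B, p i ^ 2 := Finset.sum_nonneg (fun i _ => sq_nonneg _)
  have hs12 : ∑ i ∈ B, p i ^ 2 ≤ (1 - y) * ∑ i ∈ B, p i := by
    rw [Finset.mul_sum]
    refine Finset.sum_le_sum (fun i hi => ?_)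
    nlinarith [hp i hi, hpt i hi]
  rw [hTh]
  set s1 := ∑ i ∈ B, p i with hs1def
  set s2 := ∑ i ∈ B, p i ^ 2 with hs2def
  have hfin : 0.585 * s1 + 0.17 * s2 ≤ (1 - be y) * (1 - Real.exp (-(s1 + s2 / 2))) := by
    rcases eq_or_lt_of_le h1 with h | h
    · have e1 : s1 = 0 := le_antisymm (by linarith) hs1
      have e2 : s2 = 0 := le_antisymm (by rw [e1] at hs12; linarith) hs2
      rw [e1, e2]
      simp
    · have ht : 0 < 1 - y := by linarith
      have n1 := num_one h0 h1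
      have n2 := num_two h0 h1
      set t := 1 - y with htdef
      have hw0 : 0 ≤ 1 - s1 / t := by
        rw [sub_nonneg, div_le_one ht]; exact hs
      have hw1 : 0 ≤ s1 / t - s2 / t ^ 2 := by
        rw [sub_nonneg, div_le_div_iff₀ (by positivity) ht]
        nlinarith
      have hw2 : 0 ≤ s2 / t ^ 2 := by positivity
      have key := fop_exp3 (x := 0) (y := -t) (z := -(t + t ^ 2 / 2)) hw0 hw1 hw2 (by ring)
      have e3 : (1 - s1 / t) * 0 + (s1 / t - s2 / t ^ 2) * (-t) + s2 / t ^ 2 * (-(t + t ^ 2 / 2)) = -(s1 + s2 / 2) := by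
        field_simp
        ring
      rw [e3, Real.exp_zero] at key
      have e4 : 0.585 * s1 + 0.17 * s2 = (s1 / t - s2 / t ^ 2) * (0.585 * t) + s2 / t ^ 2 * (0.585 * t + 0.17 * t ^ 2) := by
        field_simp
        ring
      rw [e4]
      have hb2 : 0 ≤ 1 - be y := by linarith
      have m1 := mul_le_mul_of_nonneg_left n1 hw1
      have m2 := mul_le_mul_of_nonneg_left n2 hw2
      have m3 := mul_le_mul_of_nonneg_left key hb2
      have e5 : (s1 / t - s2 / t ^ 2) * ((1 - be y) * (1 - Real.exp (-t))) + s2 / t ^ 2 * ((1 - be y) * (1 - Real.exp (-(t + t ^ 2 / 2)))) =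
          (1 - be y) * 1 - (1 - be y) * ((1 - s1 / t) * 1 + (s1 / t - s2 / t ^ 2) * Real.exp (-t) + s2 / t ^ 2 * Real.exp (-(t + t ^ 2 / 2))) := by
        ring
      calc (s1 / t - s2 / t ^ 2) * (0.585 * t) + s2 / t ^ 2 * (0.585 * t + 0.17 * t ^ 2)
          ≤ (s1 / t - s2 / t ^ 2) * ((1 - be y) * (1 - Real.exp (-t))) + s2 / t ^ 2 * ((1 - be y) * (1 - Real.exp (-(t + t ^ 2 / 2)))) := by
            linarith
        _ = (1 - be y) * 1 - (1 - be y) * ((1 - s1 / t) * 1 + (s1 / t - s2 / t ^ 2) * Real.exp (-t) + s2 / t ^ 2 * Real.exp (-(t + t ^ 2 / 2))) := e5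
        _ ≤ (1 - be y) * (1 - Real.exp (-(s1 + s2 / 2))) := by
            rw [mul_sub (1 - be y) 1]
            linarith
  refine hfin.trans ?_
  exact mul_le_mul_of_nonneg_left (by linarith) (by linarith)

/-- Per child. Proof: if `w ≤ a` trivial. Otherwise `b ≥ w - a`, `be x ≥ 0.585 x - 0.17 x^3/(1-x)` and
`x^2 a ≥ x^3 (w - a)/(1 - x)` because `a ≥ x w` (the case `x = 1` has `a ≥ w`). -/
theorem per_child {x a b w : ℝ} (h0 : 0 ≤ x) (h1 : x ≤ 1) (hw : 0 ≤ w) (ha : x * w ≤ a)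
    (hb : 0 ≤ b) (hab : w ≤ a + b) : 0.585 * (x * w) ≤ Th x * a + be x * b := by
  have hbe : 0 ≤ be x := (be_mem h0 h1).1
  have ha0 : 0 ≤ a := (mul_nonneg h0 hw).trans ha
  rcases le_or_gt w a with h | h
  · unfold Th
    have e1 : 0 ≤ be x * b := mul_nonneg hbe hb
    have e2 : 0 ≤ x ^ 2 * a := by positivity
    have e3 : x * w ≤ x * a := mul_le_mul_of_nonneg_left h h0
    nlinarith
  · have hx1 : x < 1 := by
      rcases eq_or_lt_of_le h1 with h2 | h2
      · rw [h2, one_mul] at ha; linarith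
      · exact h2
    have hx : 0 < 1 - x := by linarith
    have e1 : be x * (w - a) ≤ be x * b := mul_le_mul_of_nonneg_left (by linarith) hbe
    have e2 : 0.585 * x - 0.17 * x ^ 3 / (1 - x) ≤ be x := le_max_right _ _
    have e3 : (0.585 * x - 0.17 * x ^ 3 / (1 - x)) * (w - a) ≤ be x * (w - a) :=
      mul_le_mul_of_nonneg_right e2 (by linarith)
    have e4 : x ^ 3 / (1 - x) * (w - a) ≤ x ^ 2 * a := by
      rw [div_mul_eq_mul_div, div_le_iff₀ hx]
      have e5 : x * (w - a) ≤ a * (1 - x) := by nlinarith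
      have e6 : x ^ 2 * (x * (w - a)) ≤ x ^ 2 * (a * (1 - x)) := mul_le_mul_of_nonneg_left e5 (sq_nonneg x)
      nlinarith
    have e7 : (0.585 * x - 0.17 * x ^ 3 / (1 - x)) * (w - a) = 0.585 * x * (w - a) - 0.17 * (x ^ 3 / (1 - x) * (w - a)) := by
      ring
    unfold Th
    rw [e7] at e3
    nlinarith

end Pool.Agent.Lib.MP_7470b6_lc.For
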