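import Pool.Agent.Lib.MP_7470b6_lc.For.FoX

/-!
# Job FoS: the star lemma
-/

open Finset

namespace Pool.Agent.Lib.MP_7470b6_lc.For

open Pool.Agent.Lib.MP_7470b6_lc.Crs

/-- Auxiliary (FoS). Adding a constant. -/
private theorem FoS_shift {α : Type*} {T : Finset α} {Y : α → ℝ} {m : ℝ} (hm : 0 ≤ m)
    (hT : T.Nonempty) (h : ∀ c ∈ T, m ≤ Y c) :
    mx T Y = m + mx T (fun c => Y c - m) := by
  apply le_antisymm
  · refine mx_le (add_nonneg hm (mx_nonneg _ _)) fun c hc => ?_
    have h1 := le_mx (Y := fun c => Y c - m) hc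
    linarith
  · obtain ⟨c, hc⟩ := hT
    have h1 := le_mx (Y := Y) hc
    have h2 := h c hc
    have h3 : mx T (fun c => Y c - m) ≤ mx T Y - m := by
      refine mx_le (by linarith) fun d hd => ?_
      have h4 := le_mx (Y := Y) hd
      linarith
    linarith

/-- Auxiliary (FoS). -/
private theorem FoS_insert {α : Type*} [DecidableEq α] {T : Finset α} {Y : α → ℝ} {c₀ : α}
    (h0 : Y c₀ = 0) : mx (insert c₀ T) Y = mx T Y := by
  apply le_antisymm
  · refine mx_le (mx_nonneg _ _) fun c hc => ?_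
    rcases Finset.mem_insert.mp hc with rfl | hc
    · rw [h0]
      exact mx_nonneg _ _
    · exact le_mx hc
  · exact mx_le (mx_nonneg _ _) fun c hc => le_mx (Finset.mem_insert_of_mem hc)

/-- Proof: induction on the number of elements of `N`. Let `c₀ ∈ N` be such that `m = Y c₀` is
minimal, `Y' = Y - m`, `N' = N \ {c₀}`. Then `∑ N θ Y = m ∑ N θ + ∑ N' θ Y'`, and
`ev N p (mx T Y) = m (1 - ∏ N (1 - p)) + ev N p (mx T Y')` (for `T ≠ ∅` we have
`mx T Y = m + mx T Y'`; the probability of `T = ∅` is `∏ (1 - p)`, `ev_pattern`), and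
`ev N p (mx T Y') = ev N' p (mx T Y')` because `Y' c₀ = 0` (`ev_insert`). -/
theorem star_abs {α : Type*} [DecidableEq α] (N : Finset α) (p : α → ℝ)
    (hp : ∀ i ∈ N, 0 ≤ p i ∧ p i ≤ 1) (θ : α → ℝ) {C : ℝ}
    (h : ∀ B ⊆ N, ∑ i ∈ B, θ i ≤ C * (1 - ∏ i ∈ B, (1 - p i))) (Y : α → ℝ)
    (hY : ∀ i ∈ N, 0 ≤ Y i) : ∑ i ∈ N, θ i * Y i ≤ C * ev N p (fun T => mx T Y) := by
  induction hn : N.card generalizing N Y with
  | zero =>
    have hN : N = ∅ := Finset.card_eq_zero.mp hn
    subst hN
    rw [ev_empty, mx_empty, mul_zero, Finset.sum_empty]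
  | succ n ih =>
    have hne : N.Nonempty := Finset.card_pos.mp (by omega)
    obtain ⟨c₀, hc₀, hmin⟩ := Finset.exists_min_image N Y hne
    set m := Y c₀ with hm
    have hm0 : 0 ≤ m := hY c₀ hc₀
    set Y' : α → ℝ := fun c => Y c - m with hY'
    have hY'0 : Y' c₀ = 0 := sub_self _
    set N' := N.erase c₀ with hN'
    have hins : insert c₀ N' = N := Finset.insert_erase hc₀
    have hnot : c₀ ∉ N' := Finset.notMem_erase c₀ N
    have hsub : N' ⊆ N := Finset.erase_subset _ _
    have hcard : N'.card = n := by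
      rw [hN', Finset.card_erase_of_mem hc₀, hn]
      rfl
    have hIH := ih N' (fun i hi => hp i (hsub hi)) (fun B hB => h B (hB.trans hsub)) Y'
      (fun i hi => sub_nonneg.mpr (hmin i (hsub hi))) hcard
    have h1 : ∑ i ∈ N, θ i * Y i = m * ∑ i ∈ N, θ i + ∑ i ∈ N', θ i * Y' i := by
      have h2 : ∑ i ∈ N, θ i * Y' i = ∑ i ∈ N', θ i * Y' i := by
        rw [← hins, Finset.sum_insert hnot, hY'0, mul_zero, zero_add]
      rw [← h2, Finset.mul_sum, ← Finset.sum_add_distrib]
      refine Finset.sum_congr rfl fun i _ => ?_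
      simp only [hY']
      ring
    have h3 : ev N p (fun T => mx T Y') = ev N' p (fun T => mx T Y') := by
      have h4 : ev N p (fun T => mx T Y') = ev (insert c₀ N') p (fun T => mx T Y') := by
        rw [hins]
      rw [h4, ev_insert hnot]
      have h5 : ev N' p (fun T => mx (insert c₀ T) Y') = ev N' p (fun T => mx T Y') :=
        ev_congr fun T _ => FoS_insert hY'0
      rw [h5]
      ring
    have h6 : ev N p (fun T => mx T Y) =
        m * (1 - ∏ i ∈ N, (1 - p i)) + ev N p (fun T => mx T Y') := by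
      have h7 : ev N p (fun T => mx T Y) = ev N p (fun T =>
          m * (1 - (if (∅ : Finset α) ⊆ T ∧ Disjoint N T then 1 else 0)) + mx T Y') := by
        refine ev_congr fun T hT => ?_
        rcases T.eq_empty_or_nonempty with rfl | hTne
        · rw [mx_empty, mx_empty, if_pos ⟨Finset.Subset.refl _, Finset.disjoint_empty_right _⟩]
          ring
        · have h8 : ¬ ((∅ : Finset α) ⊆ T ∧ Disjoint N T) := by
            rintro ⟨-, h9⟩
            obtain ⟨c, hc⟩ := hTne
            exact Finset.disjoint_left.mp h9 (hT hc) hc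
          rw [if_neg h8, FoS_shift hm0 hTne (fun c hc => hmin c (hT hc))]
          ring
      have h8 := ev_pattern (A := N) (B := ∅) (C := N) (Finset.empty_subset _)
        (Finset.Subset.refl _) (Finset.disjoint_empty_left _) p
      rw [Finset.prod_empty, one_mul] at h8
      rw [h7, ev_add, ev_const_mul, ev_sub, ev_const, h8]
    have h9 := h N (Finset.Subset.refl _)
    have h10 : m * ∑ i ∈ N, θ i ≤ m * (C * (1 - ∏ i ∈ N, (1 - p i))) :=
      mul_le_mul_of_nonneg_left h9 hm0
    rw [h1, h6, h3]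
    calc m * ∑ i ∈ N, θ i + ∑ i ∈ N', θ i * Y' i
        ≤ m * (C * (1 - ∏ i ∈ N, (1 - p i))) + C * ev N' p (fun T => mx T Y') :=
          add_le_add h10 hIH
      _ = C * (m * (1 - ∏ i ∈ N, (1 - p i)) + ev N' p (fun T => mx T Y')) := by ring

end Pool.Agent.Lib.MP_7470b6_lc.For
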