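import Pool.Agent.Lib.MP_7470b6_lc.For.FoA
import Pool.Agent.Lib.MP_7470b6_lc.For.FoI
import Pool.Agent.Lib.MP_7470b6_lc.For.FoK
import Pool.Agent.Lib.MP_7470b6_lc.For.FoS
import Pool.Agent.Lib.MP_7470b6_lc.For.FoP

/-!
# Job FoE: the two expectation bounds
-/

open Finset

namespace Pool.Agent.Lib.MP_7470b6_lc.For

open Pool.Agent.Lib.MP_7470b6_lc.Crs

variable {V : Type} [Fintype V] [DecidableEq V] {G : SimpleGraph V} {par : V → Option V}
  {rk : V → ℕ} {w : Sym2 V → ℝ} {x : Sym2 V → ℝ}

private theorem FoE_mf {α : Type*} (q : α → Prop) (D : DecidablePred q) (s : Finset α) (a : α) :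
    a ∈ @Finset.filter α q D s ↔ a ∈ s ∧ q a :=
  @Finset.mem_filter α q D s a

private theorem FoE_bd (hx : x ∈ matchingPolytope G) (e : Sym2 V) : 0 ≤ x e ∧ x e ≤ 1 := by
  have hx' : x ∈ PF (edges G) := hx
  refine ⟨PF_nonneg hx' e, ?_⟩
  by_cases he : e ∈ edges G
  · induction e with
    | _ a b =>
    have h := PF_vertex hx' a
    refine le_trans ?_ h
    refine Finset.single_le_sum (f := x) (fun i _ => PF_nonneg hx' i) ?_
    exact (FoE_mf _ _ _ _).2 ⟨he, Sym2.mem_mk_left a b⟩
  · rw [PF_zero hx' he]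
    exact zero_le_one

private theorem FoE_sub (hr : Rooted G par rk) (u : V) :
    (ch par u).image (fun c => s(c, u)) ⊆ edges G := by
  intro e he
  rw [Finset.mem_image] at he
  obtain ⟨c, hc, rfl⟩ := he
  rw [mem_ch] at hc
  exact (FoE_mf _ _ _ _).2
    ⟨Finset.mem_univ _, (SimpleGraph.mem_edgeSet G).2 (hr.adj c u hc)⟩

omit [Fintype V] [DecidableEq V] in
private theorem FoE_disj (hr : Rooted G par rk) {u c a d : V} (hc : par c = some u)
    (had : par a = some d) (hd : rk d ≤ rk c) (c' : V) (hc' : par c' = some u) :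
    s(a, d) ≠ s(c', u) := by
  intro he
  have h1 := hr.rank c u hc
  have h2 := hr.rank a d had
  rw [Sym2.eq_iff] at he
  rcases he with ⟨rfl, rfl⟩ | ⟨rfl, rfl⟩ <;> omega

private theorem FoE_dep (hr : Rooted G par rk) {u c : V} (hc : par c = some u)
    {T : Finset (Sym2 V)} (hT : T ⊆ (ch par u).image (fun c => s(c, u))) (S : Finset (Sym2 V)) :
    LL par rk w (T ∪ S) c = LL par rk w S c := by
  refine LL_dep hr fun a d had hd => ?_
  rw [Finset.mem_union]
  constructor
  · rintro (h | h)
    · exfalso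
      have h2 := hT h
      rw [Finset.mem_image] at h2
      obtain ⟨c', hc', he⟩ := h2
      exact FoE_disj hr hc had hd c' (mem_ch.1 hc') he.symm
    · exact h
  · exact fun h => Or.inr h

/-- Proof: let `B` be the image of `ch par u` under `c ↦ s(c,u)`, `C = edges G \ B`. By `ev_union` the
expectation over `edges G` is the one over `C` of the one over `B`. For `S ⊆ C`, `T ⊆ B` we have
`LL (T ∪ S) c = LL S c` for the children `c` of `u` (`LL_dep`: the edges in `B` have the parent `u`, of larger
rank than `c`), and `LL (T ∪ S) u = mx {c | s(c,u) ∈ T} (w - LL S c)` (`LL_rec`); with `ev_image`, `mx_max`,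
`star_abs`, `num_star` (with `vertex_sum`) the inner expectation is bounded by
`∑ Th (x s(c,u)) * max 0 (w s(c,u) - LL S c)`. Integrate over `S`; the right side again is an
expectation over `edges G` (`LL_dep`). -/
theorem exp_star (hr : Rooted G par rk) (hx : x ∈ matchingPolytope G) (hw : ∀ e, 0 ≤ w e) (u : V) :
    ∑ c ∈ ch par u, Th (x s(c, u)) *
        ev (edges G) x (fun S => max 0 (w s(c, u) - LL par rk w S c)) ≤
      (1 - be (yp par x u)) * ev (edges G) x (fun S => LL par rk w S u) := by
  obtain ⟨B, hB⟩ : ∃ B, B = (ch par u).image (fun c => s(c, u)) := ⟨_, rfl⟩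
  have hBE : B ⊆ edges G := hB ▸ FoE_sub hr u
  have hE : edges G = B ∪ (edges G \ B) := (Finset.union_sdiff_of_subset hBE).symm
  obtain ⟨C, hC⟩ : ∃ C, C = edges G \ B := ⟨_, rfl⟩
  rw [← hC] at hE
  have hdis : Disjoint B C := hC ▸ Finset.disjoint_sdiff
  have hbd := FoE_bd hx
  -- step A
  have hA : ∀ c ∈ ch par u, ev (edges G) x (fun S => max 0 (w s(c, u) - LL par rk w S c)) =
      ev C x (fun S => max 0 (w s(c, u) - LL par rk w S c)) := by
    intro c hc
    rw [hE, ev_union hdis]
    refine ev_congr fun S _ => ?_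
    rw [ev_congr (g := fun _ => max 0 (w s(c, u) - LL par rk w S c))]
    · exact ev_const _ _ _
    · intro T hT
      rw [FoE_dep hr (mem_ch.1 hc) (hB ▸ hT)]
  -- step B
  have hI : ∀ S ⊆ C, ev B x (fun T => LL par rk w (T ∪ S) u) =
      ev (ch par u) (fun c => x s(c, u))
        (fun T => mx T (fun c => max 0 (w s(c, u) - LL par rk w S c))) := by
    intro S hS
    rw [hB, ev_image (inj_ch u)]
    refine ev_congr fun T hT => ?_
    rw [LL_rec hr, mx_max]
    have hpc : pc par (T.image (fun c => s(c, u)) ∪ S) u = T := by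
      ext c
      refine (FoE_mf _ _ _ _).trans ?_
      rw [Finset.mem_union, Finset.mem_image]
      constructor
      · rintro ⟨hc, ⟨c', hc', he⟩ | h⟩
        · have := inj_ch u (Finset.mem_coe.2 (hT hc')) (Finset.mem_coe.2 hc) he
          rw [← this]
          exact hc'
        · exfalso
          have h1 : s(c, u) ∈ B := hB ▸ Finset.mem_image_of_mem _ hc
          exact Finset.disjoint_left.1 hdis h1 (hS h)
      · intro hc
        exact ⟨hT hc, Or.inl ⟨c, hc, rfl⟩⟩
    rw [hpc]
    refine mx_congr fun c hc => ?_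
    rw [FoE_dep hr (mem_ch.1 (hT hc)) (Finset.image_subset_image hT)]
  -- step C
  have hstar : ∀ S : Finset (Sym2 V),
      ∑ c ∈ ch par u, Th (x s(c, u)) * max 0 (w s(c, u) - LL par rk w S c) ≤
      (1 - be (yp par x u)) * ev (ch par u) (fun c => x s(c, u))
        (fun T => mx T (fun c => max 0 (w s(c, u) - LL par rk w S c))) := by
    intro S
    refine star_abs (ch par u) (fun c => x s(c, u)) (fun i _ => hbd _) (fun c => Th (x s(c, u)))
      (fun D hD => ?_) (fun c => max 0 (w s(c, u) - LL par rk w S c)) (fun i _ => le_max_left _ _)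
    have hv := vertex_sum hr hx u
    have hy := yp_nonneg (par := par) hx u
    have hs1 : ∑ c ∈ D, x s(c, u) ≤ ∑ c ∈ ch par u, x s(c, u) :=
      Finset.sum_le_sum_of_subset_of_nonneg hD fun i _ _ => (hbd _).1
    have hs0 : 0 ≤ ∑ c ∈ ch par u, x s(c, u) := Finset.sum_nonneg fun i _ => (hbd _).1
    exact num_star D (fun c => x s(c, u)) (fun i _ => (hbd _).1) hy (by linarith) (by linarith)
  -- step D
  calc ∑ c ∈ ch par u, Th (x s(c, u)) *
        ev (edges G) x (fun S => max 0 (w s(c, u) - LL par rk w S c))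
      = ev C x (fun S => ∑ c ∈ ch par u,
          Th (x s(c, u)) * max 0 (w s(c, u) - LL par rk w S c)) := by
        rw [ev_sum]
        refine Finset.sum_congr rfl fun c hc => ?_
        rw [hA c hc, ← ev_const_mul]
    _ ≤ ev C x (fun S => (1 - be (yp par x u)) * ev B x (fun T => LL par rk w (T ∪ S) u)) := by
        refine ev_mono (fun i _ => hbd i) fun S hS => ?_
        rw [hI S hS]
        exact hstar S
    _ = (1 - be (yp par x u)) * ev (edges G) x (fun S => LL par rk w S u) := by
        rw [ev_const_mul, hE, ev_union hdis]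

/-- Proof: if no edge from `c` to its children is present then `LL c = 0` (`LL_zero`), which has
probability at least `1 - ∑ x ≥ x s(c,u)` (`ev_none`, `vertex_sum`). -/
theorem exp_child (hr : Rooted G par rk) (hx : x ∈ matchingPolytope G) (hw : ∀ e, 0 ≤ w e) {u c : V}
    (hc : par c = some u) :
    x s(c, u) * w s(c, u) ≤ ev (edges G) x (fun S => max 0 (w s(c, u) - LL par rk w S c)) := by
  have hbd := FoE_bd hx
  have hBE := FoE_sub hr c
  have h1 := ev_none hBE (p := x) (fun i _ => hbd i)
  have h2 := vertex_sum hr hx c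
  have h3 : yp par x c = x s(c, u) := by
    unfold yp
    rw [hc]
  have h4 : ∑ e ∈ (ch par c).image (fun d => s(d, c)), x e = ∑ d ∈ ch par c, x s(d, c) :=
    Finset.sum_image (inj_ch c)
  have h5 : w s(c, u) * ev (edges G) x
      (fun T => if Disjoint ((ch par c).image (fun d => s(d, c))) T then 1 else 0) ≤
      ev (edges G) x (fun S => max 0 (w s(c, u) - LL par rk w S c)) := by
    rw [← ev_const_mul]
    refine ev_mono (fun i _ => hbd i) fun T _ => ?_
    split_ifs with hd
    · have h0 : LL par rk w T c = 0 := by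
        refine LL_zero hr fun d hdc hmem => ?_
        exact Finset.disjoint_left.1 hd (Finset.mem_image_of_mem _ (mem_ch.2 hdc)) hmem
      rw [h0, sub_zero, mul_one]
      exact le_max_right _ _
    · rw [mul_zero]
      exact le_max_left _ _
  refine le_trans ?_ h5
  rw [mul_comm (x s(c, u))]
  refine mul_le_mul_of_nonneg_left ?_ (hw _)
  linarith

end Pool.Agent.Lib.MP_7470b6_lc.For
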