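import Pool.Agent.Lib.MP_7470b6_lc.For.ForD
import Pool.Agent.Lib.MP_7470b6_lc.Crs.NM0

/-!
# Job FoN: numerical inequalities
-/

open Finset

namespace Pool.Agent.Lib.MP_7470b6_lc.For

open Pool.Agent.Lib.MP_7470b6_lc.Crs

theorem be_mem {y : ℝ} (h0 : 0 ≤ y) (h1 : y ≤ 1) : 0 ≤ be y ∧ be y ≤ 0.585 := by
  unfold be
  refine ⟨le_max_left _ _, max_le (by norm_num) ?_⟩
  have h2 : 0 ≤ 0.17 * y ^ 3 / (1 - y) := div_nonneg (by positivity) (by linarith)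
  linarith

private theorem fon_e4 {z : ℝ} (hz : 0 ≤ z) :
    z * (1 - z / 2 + z ^ 2 / 6 - z ^ 3 / 24) ≤ 1 - Real.exp (-z) := by
  have hA := taylor_even 2 (y := z) hz
  have f0 : Nat.factorial 0 = 1 := rfl
  have f1 : Nat.factorial 1 = 1 := rfl
  have f2 : Nat.factorial 2 = 2 := rfl
  have f3 : Nat.factorial 3 = 6 := rfl
  have f4 : Nat.factorial (2 * 2) = 24 := rfl
  simp only [Finset.sum_range_succ, Finset.sum_range_zero, f0, f1, f2, f3, f4] at hA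
  push_cast at hA
  linear_combination hA

private theorem fon_e6 {z : ℝ} (hz : 0 ≤ z) :
    z * (1 - z / 2 + z ^ 2 / 6 - z ^ 3 / 24 + z ^ 4 / 120 - z ^ 5 / 720) ≤
      1 - Real.exp (-z) := by
  have hA := taylor_even 3 (y := z) hz
  have f0 : Nat.factorial 0 = 1 := rfl
  have f1 : Nat.factorial 1 = 1 := rfl
  have f2 : Nat.factorial 2 = 2 := rfl
  have f3 : Nat.factorial 3 = 6 := rfl
  have f4 : Nat.factorial 4 = 24 := rfl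
  have f5 : Nat.factorial 5 = 120 := rfl
  have f6 : Nat.factorial (2 * 3) = 720 := rfl
  simp only [Finset.sum_range_succ, Finset.sum_range_zero, f0, f1, f2, f3, f4, f5, f6] at hA
  push_cast at hA
  linear_combination hA

private theorem fon_p1 {t : ℝ} (h0 : 0 ≤ t) (h1 : t ≤ 1) :
    0.585 * t ≤ (t * (1 - 0.585 * (1 - t)) + 0.17 * (1 - t) ^ 3) * (1 - t / 2 + t ^ 2 / 6 - t ^ 3 / 24) := by
  rcases le_total t (11 / 20) with h | h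
  · have h2 : 0 ≤ 11 / 20 - t := by linarith
    have key : (t * (1 - 0.585 * (1 - t)) + 0.17 * (1 - t) ^ 3) * (1 - t / 2 + t ^ 2 / 6 - t ^ 3 / 24) - 0.585 * t =
      10880000 / 1771561 * (t ^ 0 * (11 / 20 - t) ^ 6) +
      38352000 / 1771561 * (t ^ 1 * (11 / 20 - t) ^ 5) +
      153682000 / 5314683 * (t ^ 2 * (11 / 20 - t) ^ 4) +
      93316130 / 5314683 * (t ^ 3 * (11 / 20 - t) ^ 3) +
      94342783 / 21258732 * (t ^ 4 * (11 / 20 - t) ^ 2) +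
      28741403 / 85034928 * (t ^ 5 * (11 / 20 - t) ^ 1) +
      79578029 / 1417248800 * (t ^ 6 * (11 / 20 - t) ^ 0) := by
      ring
    have h3 : 0 ≤ (t * (1 - 0.585 * (1 - t)) + 0.17 * (1 - t) ^ 3) * (1 - t / 2 + t ^ 2 / 6 - t ^ 3 / 24) - 0.585 * t := by
      rw [key]
      positivity
    linarith
  · have h2 : 0 ≤ t - 11 / 20 := by linarith
    have h4 : 0 ≤ 1 - t := by linarith
    have key : (t * (1 - 0.585 * (1 - t)) + 0.17 * (1 - t) ^ 3) * (1 - t / 2 + t ^ 2 / 6 - t ^ 3 / 24) - 0.585 * t =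
      79578029 / 425152800 * ((t - 11 / 20) ^ 0 * (1 - t) ^ 6) +
      15873191 / 14171760 * ((t - 11 / 20) ^ 1 * (1 - t) ^ 5) +
      1275937 / 118098 * ((t - 11 / 20) ^ 2 * (1 - t) ^ 4) +
      17001380 / 531441 * ((t - 11 / 20) ^ 3 * (1 - t) ^ 3) +
      7092400 / 177147 * ((t - 11 / 20) ^ 4 * (1 - t) ^ 2) +
      1342000 / 59049 * ((t - 11 / 20) ^ 5 * (1 - t) ^ 1) +
      2560000 / 531441 * ((t - 11 / 20) ^ 6 * (1 - t) ^ 0) := by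
      ring
    have h3 : 0 ≤ (t * (1 - 0.585 * (1 - t)) + 0.17 * (1 - t) ^ 3) * (1 - t / 2 + t ^ 2 / 6 - t ^ 3 / 24) - 0.585 * t := by
      rw [key]
      positivity
    linarith

private theorem fon_p2 {t : ℝ} (h0 : 0 ≤ t) (h1 : t ≤ 1) :
    0.585 * t + 0.17 * t ^ 2 ≤ (t * (1 - 0.585 * (1 - t)) + 0.17 * (1 - t) ^ 3) * ((1 + t / 2) *
      (1 - (t + t ^ 2 / 2) / 2 + (t + t ^ 2 / 2) ^ 2 / 6 - (t + t ^ 2 / 2) ^ 3 / 24 + (t + t ^ 2 / 2) ^ 4 / 120 - (t + t ^ 2 / 2) ^ 5 / 720)) := by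
  have h4 : 0 ≤ 1 - t := by linarith
  have key : (t * (1 - 0.585 * (1 - t)) + 0.17 * (1 - t) ^ 3) * ((1 + t / 2) *
      (1 - (t + t ^ 2 / 2) / 2 + (t + t ^ 2 / 2) ^ 2 / 6 - (t + t ^ 2 / 2) ^ 3 / 24 + (t + t ^ 2 / 2) ^ 4 / 120 - (t + t ^ 2 / 2) ^ 5 / 720)) - (0.585 * t + 0.17 * t ^ 2) =
      17 / 100 * (t ^ 0 * (1 - t) ^ 14) +
      17 / 10 * (t ^ 1 * (1 - t) ^ 13) +
      4499 / 600 * (t ^ 2 * (1 - t) ^ 12) +
      22963 / 1200 * (t ^ 3 * (1 - t) ^ 11) +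
      125079 / 4000 * (t ^ 4 * (1 - t) ^ 10) +
      627109 / 18000 * (t ^ 5 * (1 - t) ^ 9) +
      2130137 / 72000 * (t ^ 6 * (1 - t) ^ 8) +
      14340611 / 576000 * (t ^ 7 * (1 - t) ^ 7) +
      28496603 / 1152000 * (t ^ 8 * (1 - t) ^ 6) +
      734103 / 32000 * (t ^ 9 * (1 - t) ^ 5) +
      6018433 / 384000 * (t ^ 10 * (1 - t) ^ 4) +
      10998739 / 1536000 * (t ^ 11 * (1 - t) ^ 3) +
      2088661 / 1024000 * (t ^ 12 * (1 - t) ^ 2) +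
      325849 / 1024000 * (t ^ 13 * (1 - t) ^ 1) +
      487 / 25600 * (t ^ 14 * (1 - t) ^ 0) := by
    ring
  have h3 : 0 ≤ (t * (1 - 0.585 * (1 - t)) + 0.17 * (1 - t) ^ 3) * ((1 + t / 2) *
      (1 - (t + t ^ 2 / 2) / 2 + (t + t ^ 2 / 2) ^ 2 / 6 - (t + t ^ 2 / 2) ^ 3 / 24 + (t + t ^ 2 / 2) ^ 4 / 120 - (t + t ^ 2 / 2) ^ 5 / 720)) - (0.585 * t + 0.17 * t ^ 2) := by
    rw [key]
    positivity
  linarith

private theorem fon_p3 {t : ℝ} (h0 : 0 ≤ t) (h1 : t ≤ 1) :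
    0.585 + 0.17 * t ≤ (1 + t / 2) *
      (1 - (t + t ^ 2 / 2) / 2 + (t + t ^ 2 / 2) ^ 2 / 6 - (t + t ^ 2 / 2) ^ 3 / 24 + (t + t ^ 2 / 2) ^ 4 / 120 - (t + t ^ 2 / 2) ^ 5 / 720) := by
  have h4 : 0 ≤ 1 - t := by linarith
  have key : (1 + t / 2) *
      (1 - (t + t ^ 2 / 2) / 2 + (t + t ^ 2 / 2) ^ 2 / 6 - (t + t ^ 2 / 2) ^ 3 / 24 + (t + t ^ 2 / 2) ^ 4 / 120 - (t + t ^ 2 / 2) ^ 5 / 720) - (0.585 + 0.17 * t) =
      83 / 200 * (t ^ 0 * (1 - t) ^ 11) +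
      879 / 200 * (t ^ 1 * (1 - t) ^ 10) +
      499 / 24 * (t ^ 2 * (1 - t) ^ 9) +
      6949 / 120 * (t ^ 3 * (1 - t) ^ 8) +
      1579 / 15 * (t ^ 4 * (1 - t) ^ 7) +
      58811 / 450 * (t ^ 5 * (1 - t) ^ 6) +
      134963 / 1200 * (t ^ 6 * (1 - t) ^ 5) +
      25529 / 384 * (t ^ 7 * (1 - t) ^ 4) +
      49949 / 1920 * (t ^ 8 * (1 - t) ^ 3) +
      793 / 128 * (t ^ 9 * (1 - t) ^ 2) +
      4691 / 6400 * (t ^ 10 * (1 - t) ^ 1) +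
      487 / 25600 * (t ^ 11 * (1 - t) ^ 0) := by
    ring
  have h3 : 0 ≤ (1 + t / 2) *
      (1 - (t + t ^ 2 / 2) / 2 + (t + t ^ 2 / 2) ^ 2 / 6 - (t + t ^ 2 / 2) ^ 3 / 24 + (t + t ^ 2 / 2) ^ 4 / 120 - (t + t ^ 2 / 2) ^ 5 / 720) - (0.585 + 0.17 * t) := by
    rw [key]
    positivity
  linarith

private theorem fon_p4 {t : ℝ} (h0 : 0 ≤ t) (h1 : t ≤ 1) :
    0.585 ≤ 1 - t / 2 + t ^ 2 / 6 - t ^ 3 / 24 := by
  have h2 : t ^ 3 ≤ t ^ 2 := by nlinarith [sq_nonneg t]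
  nlinarith [sq_nonneg t]

/-- The reduction common to both inequalities. -/
private theorem fon_red {y a q E : ℝ} (h0 : 0 ≤ y) (h1 : y < 1)
    (hq : (1 - y) * q ≤ E) (hq0 : 0 ≤ q) (ha1 : a ≤ (1 - y) * q)
    (ha2 : a ≤ ((1 - y) * (1 - 0.585 * y) + 0.17 * y ^ 3) * q) :
    a ≤ (1 - be y) * E := by
  have ht : 0 < 1 - y := by linarith
  have hE : 0 ≤ E := le_trans (by positivity) hq
  unfold be
  rcases max_cases 0 (0.585 * y - 0.17 * y ^ 3 / (1 - y)) with ⟨h, -⟩ | ⟨h, -⟩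
  · rw [h]
    linarith
  · rw [h]
    have h3 : 1 - (0.585 * y - 0.17 * y ^ 3 / (1 - y)) =
        ((1 - y) * (1 - 0.585 * y) + 0.17 * y ^ 3) / (1 - y) := by
      field_simp
      ring
    have h4 : 0 ≤ ((1 - y) * (1 - 0.585 * y) + 0.17 * y ^ 3) / (1 - y) := by
      refine div_nonneg (add_nonneg (mul_nonneg ht.le ?_) (by positivity)) ht.le
      linarith
    rw [h3]
    calc a ≤ ((1 - y) * (1 - 0.585 * y) + 0.17 * y ^ 3) * q := ha2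
      _ = ((1 - y) * (1 - 0.585 * y) + 0.17 * y ^ 3) / (1 - y) * ((1 - y) * q) := by
        field_simp
      _ ≤ _ := mul_le_mul_of_nonneg_left hq h4

/-- Job FoN. -/
theorem num_one {y : ℝ} (h0 : 0 ≤ y) (h1 : y ≤ 1) :
    0.585 * (1 - y) ≤ (1 - be y) * (1 - Real.exp (-(1 - y))) := by
  rcases h1.eq_or_lt with h | h
  · subst h
    simp
  have ht0 : 0 ≤ 1 - y := by linarith
  have ht1 : 1 - y ≤ 1 := by linarith
  have h4 := fon_p4 ht0 ht1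
  have hp := fon_p1 ht0 ht1
  refine fon_red h0 h (fon_e4 ht0) (by linarith) ?_ ?_
  · rw [mul_comm]
    exact mul_le_mul_of_nonneg_left h4 ht0
  · refine hp.trans (le_of_eq ?_)
    ring

/-- Job FoN. -/
theorem num_two {y : ℝ} (h0 : 0 ≤ y) (h1 : y ≤ 1) :
    0.585 * (1 - y) + 0.17 * (1 - y) ^ 2 ≤
      (1 - be y) * (1 - Real.exp (-((1 - y) + (1 - y) ^ 2 / 2))) := by
  rcases h1.eq_or_lt with h | h
  · subst h
    simp
  have ht0 : 0 ≤ 1 - y := by linarith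
  have ht1 : 1 - y ≤ 1 := by linarith
  have h4 := fon_p3 ht0 ht1
  have hp := fon_p2 ht0 ht1
  have hz : 0 ≤ (1 - y) + (1 - y) ^ 2 / 2 := by positivity
  have hq := fon_e6 hz
  set q : ℝ := (1 + (1 - y) / 2) * (1 - ((1 - y) + (1 - y) ^ 2 / 2) / 2 +
    ((1 - y) + (1 - y) ^ 2 / 2) ^ 2 / 6 - ((1 - y) + (1 - y) ^ 2 / 2) ^ 3 / 24 +
    ((1 - y) + (1 - y) ^ 2 / 2) ^ 4 / 120 - ((1 - y) + (1 - y) ^ 2 / 2) ^ 5 / 720) with hqd
  refine fon_red h0 h (q := q) ?_ ?_ ?_ ?_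
  · refine le_trans (le_of_eq ?_) hq
    rw [hqd]
    ring
  · have : (0 : ℝ) ≤ 0.585 + 0.17 * (1 - y) := by positivity
    linarith
  · have h5 := mul_le_mul_of_nonneg_left h4 ht0
    linarith
  · refine hp.trans (le_of_eq ?_)
    ring

end Pool.Agent.Lib.MP_7470b6_lc.For
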