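import Pool.Agent.Lib.MP_7470b6_lc.For.ForD

/-!
# Job FoX: properties of mx
-/

open Finset

namespace Pool.Agent.Lib.MP_7470b6_lc.For

theorem mx_nonneg {α : Type*} (T : Finset α) (Y : α → ℝ) : 0 ≤ mx T Y := NNReal.coe_nonneg _

theorem le_mx {α : Type*} {T : Finset α} {Y : α → ℝ} {c : α} (hc : c ∈ T) : Y c ≤ mx T Y := by
  have h : (Y c).toNNReal ≤ T.sup fun c => (Y c).toNNReal :=
    Finset.le_sup (f := fun c => (Y c).toNNReal) hc
  have h2 : ((Y c).toNNReal : ℝ) ≤ mx T Y := NNReal.coe_le_coe.mpr h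
  exact (Real.le_coe_toNNReal (Y c)).trans h2

theorem mx_le {α : Type*} {T : Finset α} {Y : α → ℝ} {b : ℝ} (hb : 0 ≤ b)
    (h : ∀ c ∈ T, Y c ≤ b) : mx T Y ≤ b := by
  have h1 : (T.sup fun c => (Y c).toNNReal) ≤ b.toNNReal :=
    Finset.sup_le fun c hc => Real.toNNReal_le_toNNReal (h c hc)
  have h2 : mx T Y ≤ (b.toNNReal : ℝ) := NNReal.coe_le_coe.mpr h1
  rwa [Real.coe_toNNReal b hb] at h2

theorem mx_empty {α : Type*} (Y : α → ℝ) : mx ∅ Y = 0 := by
  simp [mx]

/-- `Finset.exists_mem_eq_sup`. -/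
theorem exists_eq_mx {α : Type*} {T : Finset α} {Y : α → ℝ} (h : 0 < mx T Y) :
    ∃ c ∈ T, Y c = mx T Y := by
  have hne : T.Nonempty := by
    rw [Finset.nonempty_iff_ne_empty]
    rintro rfl
    rw [mx_empty] at h
    exact lt_irrefl _ h
  obtain ⟨c, hc, hce⟩ := Finset.exists_mem_eq_sup T hne (fun c => (Y c).toNNReal)
  refine ⟨c, hc, ?_⟩
  have h2 : mx T Y = ((Y c).toNNReal : ℝ) := congrArg _ hce
  rw [h2] at h ⊢
  have h3 : 0 < Y c := by
    by_contra hcon
    rw [Real.toNNReal_of_nonpos (not_lt.mp hcon)] at h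
    exact lt_irrefl _ h
  rw [Real.coe_toNNReal _ h3.le]

theorem mx_congr {α : Type*} {T : Finset α} {Y Z : α → ℝ} (h : ∀ c ∈ T, Y c = Z c) :
    mx T Y = mx T Z := by
  unfold mx
  congr 1
  exact Finset.sup_congr rfl fun c hc => by rw [h c hc]

theorem mx_max {α : Type*} (T : Finset α) (Y : α → ℝ) :
    mx T (fun c => max 0 (Y c)) = mx T Y := by
  unfold mx
  congr 1
  refine Finset.sup_congr rfl fun c _ => ?_
  apply NNReal.coe_injective
  simp only [Real.coe_toNNReal']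
  rcases le_total 0 (Y c) with h | h
  · rw [max_eq_right h]
  · rw [max_eq_left h]
    simp [h]

theorem mx_image {α β : Type*} [DecidableEq β] (T : Finset α) (g : α → β) (Y : β → ℝ) :
    mx (T.image g) Y = mx T (fun c => Y (g c)) := by
  unfold mx
  rw [Finset.sup_image]
  rfl

end Pool.Agent.Lib.MP_7470b6_lc.For
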