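import Pool.Agent.Lib.MP_7470b6_lc.Crs.EVC
import Pool.Agent.Lib.MP_7470b6_lc.Crs.DIS

/-!
# Forests: definitions
-/

open Finset

namespace Pool.Agent.Lib.MP_7470b6_lc.For

/-- A rooted forest: every edge joins a vertex and its parent, and ranks increase towards the
parent. -/
structure Rooted {V : Type} (G : SimpleGraph V) (par : V → Option V) (rk : V → ℕ) : Prop where
  adj : ∀ v u, par v = some u → G.Adj v u
  rank : ∀ v u, par v = some u → rk v < rk u
  cover : ∀ u v, G.Adj u v → par u = some v ∨ par v = some u

open Classical in
/-- The children of a vertex. -/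
noncomputable def ch {V : Type} [Fintype V] (par : V → Option V) (u : V) : Finset V :=
  Finset.univ.filter (fun c => par c = some u)

/-- The maximum of `0` and the values of `Y` on `T`. -/
noncomputable def mx {α : Type*} (T : Finset α) (Y : α → ℝ) : ℝ :=
  ((T.sup fun c => (Y c).toNNReal : NNReal) : ℝ)

open Classical in
/-- The children `c` of `u` such that the edge `s(c,u)` is present. -/
noncomputable def pc {V : Type} [Fintype V] (par : V → Option V) (S : Finset (Sym2 V)) (u : V) :
    Finset V :=
  (ch par u).filter (fun c => s(c, u) ∈ S)

/-- Approximations of the gain of a vertex (with a bound for the depth). -/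
noncomputable def Lf {V : Type} [Fintype V] (par : V → Option V) (w : Sym2 V → ℝ)
    (S : Finset (Sym2 V)) : ℕ → V → ℝ
  | 0, _ => 0
  | n + 1, u => mx (pc par S u) (fun c => w s(c, u) - Lf par w S n c)

/-- The gain of a vertex: the maximum weight of a matching of the subtree at `u` minus the one of
the subtree without `u`. -/
noncomputable def LL {V : Type} [Fintype V] (par : V → Option V) (rk : V → ℕ) (w : Sym2 V → ℝ)
    (S : Finset (Sym2 V)) (u : V) : ℝ :=
  Lf par w S (rk u + 1) u

/-- Value of `x` on the edge to the parent, `0` for a root. -/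
noncomputable def yp {V : Type} (par : V → Option V) (x : Sym2 V → ℝ) (u : V) : ℝ :=
  match par u with
  | some p => x s(u, p)
  | none => 0

/-- Payment of the star. -/
noncomputable def Th (x : ℝ) : ℝ := 0.585 * x + 0.17 * x ^ 2

/-- Share of the gain of a vertex that is reserved for its parent edge. -/
noncomputable def be (y : ℝ) : ℝ := max 0 (0.585 * y - 0.17 * y ^ 3 / (1 - y))

end Pool.Agent.Lib.MP_7470b6_lc.For
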